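import Pool.Agent.X184.HypD

set_option autoImplicit false

open scoped Manifold ContDiff Topology
open OnePoint Set Filter
open Pool.Agent.X184

namespace Pool.Agent.Results.MP_e6fbad_gt.HyperellipticUnique

/-- **Uniqueness of the hyperelliptic involution on infinite-type surfaces.**

Let `R` be a Riemann surface (connected Hausdorff complex manifold of dimension one). If `R` has a
hyperelliptic involution `τ` whose limit set `derivedSet B` is finite, or more generally whose limit
set has an isolated point `q` (as happens when it is countable), then any two hyperelliptic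
involutions of `R`, with arbitrary limit sets, are equal. -/
theorem result (R : Type*) [TopologicalSpace R] [ChartedSpace ℂ R] [IsManifold 𝓘(ℂ) ω R]
    [T2Space R] [ConnectedSpace R]
    (hR : ∃ (τ : R ≃ₘ^ω⟮𝓘(ℂ), 𝓘(ℂ)⟯ R) (B : Set (OnePoint ℂ)),
      IsHyperellipticInvolutionWith τ B ∧
        ((derivedSet B).Finite ∨ ∃ q ∈ derivedSet B, ∃ W ∈ 𝓝 q, W ∩ derivedSet B ⊆ {q}))
    (τ₁ τ₂ : R ≃ₘ^ω⟮𝓘(ℂ), 𝓘(ℂ)⟯ R)
    (h₁ : IsHyperellipticInvolution τ₁) (h₂ : IsHyperellipticInvolution τ₂) :
    τ₁ = τ₂ := by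
  obtain ⟨τ, B, hτ, h⟩ := hR
  obtain ⟨π, hp, -⟩ := id hτ
  obtain ⟨q, hq, hiso⟩ : ∃ q ∈ derivedSet B, ∃ W ∈ 𝓝 q, W ∩ derivedSet B ⊆ {q} := by
    rcases h with h | h
    · exact exists_isolated_of_finite hp.infinite h
    · exact h
  rw [← unique_of_isolated hτ h₁ hq hiso, ← unique_of_isolated hτ h₂ hq hiso]

end Pool.Agent.Results.MP_e6fbad_gt.HyperellipticUnique
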